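import Mathlib
import Pool.Agent.R421.ET.Ex
import Pool.Agent.W307.RT.Tors

/-!
# The ranks of the elliptic curves with torsion group `Z/4`, `Z/8`, `Z/12`

All elliptic curves over `ℚ` with torsion group exactly `Z/4` (respectively `Z/8`, `Z/12`), ordered
by height: their number tends to infinity with the height, almost all the curves with a rational
point of order 4 (respectively 8) have torsion group `Z/4` (respectively `Z/8`), and for some
`α > 0` the average of `(2 ^ rank) ^ α` over the curves with the given torsion group is bounded. So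
the proportion of the curves of rank at least `r` is at most `C / 2 ^ (α r)`, uniformly in the
height.
-/

set_option autoImplicit false

namespace Pool.Agent.Results.MP_9e6228_nt.ExactCyclicTorsion

open Finset Filter Topology

/-- the curve `y² = x³ + A x + B` over `ℚ` -/
def E (A B : ℤ) : WeierstrassCurve ℚ := ⟨0, 0, 0, (A : ℚ), (B : ℚ)⟩

/-- the Mordell-Weil rank -/
noncomputable def rank (c : ℤ × ℤ) : ℕ := Module.finrank ℤ (E c.1 c.2).toAffine.Point

open Classical in
/-- The pairs `(A, B)` of integers such that `4 A³ + 27 B² ≠ 0`, there is no prime `p` with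
`p⁴ ∣ A` and `p⁶ ∣ B`, the height `max (4 |A|³) (27 B²)` is at most `H`, and `y² = x³ + A x + B` has
a rational point of order `N`. (The bounds `|A|, |B| ≤ H` follow from the bound of the height. Every
elliptic curve over `ℚ` is isomorphic to `E A B` for exactly one pair with the first two
properties.) -/
noncomputable def Order (N H : ℕ) : Finset (ℤ × ℤ) :=
  ((Icc (-(H : ℤ)) H) ×ˢ (Icc (-(H : ℤ)) H)).filter (fun c : ℤ × ℤ =>
    4 * c.1 ^ 3 + 27 * c.2 ^ 2 ≠ 0 ∧ 4 * |c.1| ^ 3 ≤ H ∧ 27 * c.2 ^ 2 ≤ H ∧
    (∀ p : ℕ, p.Prime → ¬ ((p : ℤ) ^ 4 ∣ c.1 ∧ (p : ℤ) ^ 6 ∣ c.2)) ∧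
    ∃ P : (E c.1 c.2).toAffine.Point, addOrderOf P = N)

open Classical in
/-- The curves of `Order 4 H` without a rational point of order 8 or 12 and without a subgroup
`Z/2 x Z/4` of rational points. By Mazur's theorem these are the elliptic curves over `ℚ` of height
at most `H` with torsion group `Z/4`. -/
noncomputable def F4 (H : ℕ) : Finset (ℤ × ℤ) :=
  (Order 4 H).filter (fun c => (∀ P : (E c.1 c.2).toAffine.Point, addOrderOf P ≠ 8) ∧
    (∀ P : (E c.1 c.2).toAffine.Point, addOrderOf P ≠ 12) ∧
    ¬ ∃ f : ZMod 2 × ZMod 4 →+ (E c.1 c.2).toAffine.Point, Function.Injective f)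

open Classical in
/-- The curves of `Order 8 H` without a subgroup `Z/2 x Z/8` of rational points. By Mazur's theorem
these are the elliptic curves over `ℚ` of height at most `H` with torsion group `Z/8`. -/
noncomputable def F8 (H : ℕ) : Finset (ℤ × ℤ) :=
  (Order 8 H).filter (fun c =>
    ¬ ∃ f : ZMod 2 × ZMod 8 →+ (E c.1 c.2).toAffine.Point, Function.Injective f)

/-- The curves with a rational point of order 12. By Mazur's theorem these are the elliptic curves
over `ℚ` of height at most `H` with torsion group `Z/12`. -/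
noncomputable def F12 (H : ℕ) : Finset (ℤ × ℤ) := Order 12 H

/-- The ranks of the curves of the family have bounded exponential moments: for some `α > 0` the
average of `(2 ^ rank) ^ α` over the curves of height at most `H` is bounded. -/
def BoundedRanks (F : ℕ → Finset (ℤ × ℤ)) : Prop :=
  ∃ α : ℝ, 0 < α ∧ ∃ C : ℝ, ∀ H : ℕ, ∑ c ∈ F H, ((2 : ℝ) ^ rank c) ^ α ≤ C * (F H).card

lemma Order_eq (N H : ℕ) : Order N H = Pool.Agent.R421.HF.CvN N H := rfl

lemma F4_eq (H : ℕ) : F4 H = Pool.Agent.R421.ET.G4 H := by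
  classical
  unfold F4 Pool.Agent.R421.ET.G4
  rw [Order_eq]
  apply filter_congr
  intro c _
  have h : Pool.Agent.W307.RT.HasT 4 (Pool.Agent.W307.RT.Sh c.1 c.2) ↔
      ∃ f : ZMod 2 × ZMod 4 →+ (E c.1 c.2).toAffine.Point, Function.Injective f :=
    Pool.Agent.W307.RT.tors_iff
  rw [h]
  rfl

lemma F8_eq (H : ℕ) : F8 H = Pool.Agent.R421.ET.G8 H := by
  classical
  unfold F8 Pool.Agent.R421.ET.G8
  rw [Order_eq]
  apply filter_congr
  intro c _
  have h : Pool.Agent.W307.RT.HasT 8 (Pool.Agent.W307.RT.Sh c.1 c.2) ↔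
      ∃ f : ZMod 2 × ZMod 8 →+ (E c.1 c.2).toAffine.Point, Function.Injective f :=
    Pool.Agent.W307.RT.tors_iff
  rw [h]

/-- **Theorem.** For `T = Z/4` and `T = Z/8`: the number of the elliptic curves over `ℚ` of height at
most `H` with torsion group `T` tends to infinity with `H`; their proportion among the curves of
height at most `H` with a rational point of order `|T|` tends to one; and for some `α > 0` the
average of `(2 ^ rank) ^ α` over the curves with torsion group `T` is bounded. For `T = Z/12`: the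
number tends to infinity, and for some `α > 0` the average of `(2 ^ rank) ^ α` is bounded. -/
theorem result :
    (Tendsto (fun H : ℕ => (F4 H).card) atTop atTop ∧
      Tendsto (fun H : ℕ => ((F4 H).card : ℝ) / (Order 4 H).card) atTop (𝓝 1) ∧
      BoundedRanks F4) ∧
    (Tendsto (fun H : ℕ => (F8 H).card) atTop atTop ∧
      Tendsto (fun H : ℕ => ((F8 H).card : ℝ) / (Order 8 H).card) atTop (𝓝 1) ∧
      BoundedRanks F8) ∧
    (Tendsto (fun H : ℕ => (F12 H).card) atTop atTop ∧ BoundedRanks F12) := by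
  unfold BoundedRanks F12
  simp only [F4_eq, F8_eq, Order_eq]
  refine ⟨⟨Pool.Agent.R421.ET.tend_of_ratio Pool.Agent.R421.ET.tend4 Pool.Agent.R421.ET.r4,
    Pool.Agent.R421.ET.r4, ?_⟩,
    ⟨Pool.Agent.R421.ET.tend_of_ratio Pool.Agent.R421.ET.tend8 Pool.Agent.R421.ET.r8,
    Pool.Agent.R421.ET.r8, ?_⟩,
    Pool.Agent.R421.HF.tendsto_of_low' (by norm_num) Pool.Agent.R421.Z12.low12, ?_⟩
  · obtain ⟨α, hα, C, h⟩ := Pool.Agent.R421.Z4.main4
    exact ⟨α, hα, Pool.Agent.R421.ET.avg_ex (w := fun c => ((2 : ℝ) ^ rank c) ^ α)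
      (fun c => by positivity)
      (fun H c hc => by classical exact (mem_filter.1 hc).1)
      (fun H => Pool.Agent.R421.ET.cvN_card 4 H) h Pool.Agent.R421.ET.r4⟩
  · obtain ⟨α, hα, C, h⟩ := Pool.Agent.R421.Z8.main8
    exact ⟨α, hα, Pool.Agent.R421.ET.avg_ex (w := fun c => ((2 : ℝ) ^ rank c) ^ α)
      (fun c => by positivity)
      (fun H c hc => by classical exact (mem_filter.1 hc).1)
      (fun H => Pool.Agent.R421.ET.cvN_card 8 H) h Pool.Agent.R421.ET.r8⟩
  · exact Pool.Agent.R421.Z12.main12

end Pool.Agent.Results.MP_9e6228_nt.ExactCyclicTorsion
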