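import Pool.Agent.R323.SH.J

/-!
# MP_9e6228_nt: the rank carried by the points of small height

For every `ε > 0` there are `N` and `δ > 0` such that, whatever the torsion group, all but
`O(Y ^ ε)` of the elliptic curves `y² = x³ + A x + B` with `|A|, |B| ≤ Y` have the following
property: the subgroup of `E(ℚ)` generated by all points whose `x`-coordinate has numerator
and denominator at most `Y ^ δ` has rank at most `N`.
-/

set_option autoImplicit false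

namespace Pool.Agent.Results.MP_9e6228_nt.FewCurvesSmallRank

theorem result (ε : ℝ) (hε : 0 < ε) : ∃ (N : ℕ) (δ C : ℝ), 0 < δ ∧ ∀ Y : ℕ, 1 ≤ Y →
    ∀ S : Finset (ℤ × ℤ), (∀ t ∈ S, |t.1| ≤ (Y : ℤ) ∧ |t.2| ≤ (Y : ℤ) ∧
      4 * t.1 ^ 3 + 27 * t.2 ^ 2 ≠ 0 ∧
      (N : Cardinal) < Module.rank ℤ (Submodule.span ℤ
        {P : (WeierstrassCurve.mk 0 0 0 (t.1 : ℚ) (t.2 : ℚ)).toAffine.Point |
          ∃ x y h, P = .some x y h ∧ (|x.num| : ℝ) ≤ (Y : ℝ) ^ δ ∧ (x.den : ℝ) ≤ (Y : ℝ) ^ δ})) →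
      (S.card : ℝ) ≤ C * (Y : ℝ) ^ ε :=
  Pool.Agent.R323.SH.elliptic_rank ε hε

end Pool.Agent.Results.MP_9e6228_nt.FewCurvesSmallRank
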